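import Mathlib
import Pool.Agent.Run7.h520.MZ.I

/-! Piece BAS of project MZ (MP_5076ba_lc). -/

set_option autoImplicit false

namespace Run7.h520.MZ
open FirstOrder FirstOrder.Language

instance relCountable (n : ℕ) : Countable (Rel n) := by
  have : Function.Injective (fun r : Rel n => match r with
    | Rel.P => true
    | Rel.lin _ => false) := by
    intro a b h
    cases a <;> cases b <;> simp_all
  exact this.countable

theorem bas : S_BAS := by
  refine ⟨?_, ?_, ?_, ?_⟩
  · unfold Language.card
    rw [Cardinal.mk_le_aleph0_iff]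
    have h1 : Countable (Σ l, LZ.Functions l) := by
      have : IsEmpty (Σ l, LZ.Functions l) := ⟨fun x => (x.2 : Empty).elim⟩
      infer_instance
    have h2 : Countable (Σ l, LZ.Relations l) := by
      have : ∀ l, Countable (LZ.Relations l) := fun l => relCountable l
      infer_instance
    show Countable ((Σ l, LZ.Functions l) ⊕ (Σ l, LZ.Relations l))
    infer_instance
  · show Countable (V ⊕ ({w : V // w ≠ 0} × ℕ))
    infer_instance
  · show Infinite (V ⊕ ({w : V // w ≠ 0} × ℕ))
    infer_instance
  · intro α β s t r
    refine ⟨⟨fun _ => Iff.rfl, fun _ _ => Iff.rfl, fun _ => Iff.rfl⟩,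
      fun h => ⟨fun i => (h.P i).symm, fun i j => (h.eq i j).symm, fun c => (h.lin c).symm⟩,
      fun h h' => ⟨fun i => (h.P i).trans (h'.P i), fun i j => (h.eq i j).trans (h'.eq i j),
        fun c => (h.lin c).trans (h'.lin c)⟩,
      fun g h => ⟨fun i => h.P (g i), fun i j => h.eq (g i) (g j), fun c => ?_⟩⟩
    have key : ∀ u : α → M0, lc (u ∘ g) c = lc u (Finsupp.mapDomain g c) := by
      intro u
      unfold lc
      rw [Finsupp.linearCombination_mapDomain]
      rfl
    rw [key, key]
    exact h.lin _

end Run7.h520.MZ
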