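import Mathlib
import Pool.Agent.Run7.h520.MZ.I

/-! Piece LS of project MZ (MP_5076ba_lc). -/

set_option autoImplicit false

namespace Run7.h520.MZ
open FirstOrder FirstOrder.Language

theorem ls : S_LS := by
  intro hbas hcat N _ _ A hA
  obtain ⟨hcard, hc, hi, -⟩ := hbas
  have hNM : LZ.completeTheory M0 = T0 := rfl
  -- `N` is infinite
  have hequiv : M0 ≅[LZ] N := by
    rw [elementarilyEquivalent_iff]
    intro φ
    constructor
    · intro h
      have : N ⊨ T0 := inferInstance
      exact this.realize_of_mem φ h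
    · intro h
      by_contra h'
      have h2 : M0 ⊨ φ.not := h'
      have : N ⊨ T0 := inferInstance
      have h3 : N ⊨ φ.not := this.realize_of_mem φ.not h2
      exact h3 h
  have hNinf : Infinite N := hequiv.infinite_iff.1 hi
  have hA' : Cardinal.mk A ≤ Cardinal.aleph0 := Cardinal.mk_le_aleph0_iff.2 hA.to_subtype
  obtain ⟨S, hAS, hS⟩ := exists_elementarySubstructure_card_eq LZ A Cardinal.aleph0.{0} le_rfl
    (by simpa using hA') (by simpa using hcard) (by simp)
  have hS' : Cardinal.mk S = Cardinal.aleph0 := by simpa using hS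
  have hM0 : Cardinal.mk M0 = Cardinal.aleph0 := Cardinal.mk_eq_aleph0 M0
  have hSmod : S ⊨ T0 := S.theory_model
  have hM0mod : M0 ⊨ T0 := by
    rw [← hNM]
    infer_instance
  have hSne : Nonempty S := by
    apply Cardinal.mk_ne_zero_iff.1
    rw [hS']
    exact Cardinal.aleph0_ne_zero
  have hM0ne : Nonempty M0 := inferInstance
  obtain ⟨e⟩ : Nonempty (M0 ≃[LZ] S) :=
    hcat (Theory.ModelType.of T0 M0) (Theory.ModelType.of T0 S) hM0 hS'
  refine ⟨S.subtype.comp e.toElementaryEmbedding, ?_⟩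
  intro a ha
  have ha' : a ∈ S := hAS ha
  refine ⟨e.symm ⟨a, ha'⟩, ?_⟩
  have h1 : e (e.symm ⟨a, ha'⟩) = (⟨a, ha'⟩ : S) := e.apply_symm_apply _
  exact congrArg Subtype.val h1

end Run7.h520.MZ
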